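import Mathlib
import Pool.Agent.Helper81.Flow.Numbers

/-!
MP_59a14c_lc, Q1: near-linear sparsifiers for the flow metrics `d_p`, `1 < p ≤ 2`.

Every weighted graph on `n` vertices has, for `1 < p ≤ 2` with Hölder conjugate `q` and
`0 < ε < 1`, a `d_p`-sparsifier with `(1+ε)`-approximation which is a reweighted subgraph with at
most `4 (1200/ε)^q n (log n)^(5q/2)` edges. For `p = 1.1`, `ε = 0.01` this gives fewer than
`n^(1+c)` edges for every `c > 0` and all large `n`, which disproves Q1.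

Sketch: a bundle of `t = polylog n` greedy spanners gives, for every edge outside it, a unit flow
inside the bundle of tiny cost. A random half of the outside edges is deleted, the other half gets
its weight multiplied by `2^(1/q)`, and each optimal flow is repaired inside the bundle; the signed
sums are controlled by a subgaussian union bound over the pairs of vertices, and the lower bound is
by duality with the optimal potentials. This is iterated `2 log n` times.
-/

namespace Pool.Agent.Results.MP_59a14c_lc.NearLinearFlowSparsifiers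

open Pool.Agent.Helper81.Flow

/-- A weighted graph with vertex set `Fin n`: a finite set of pairs `(u, v)` with `u < v`, each
with a positive weight. -/
structure WGraph (n : ℕ) where
  /-- the edges -/
  edges : Finset (Fin n × Fin n)
  lt : ∀ e ∈ edges, e.1 < e.2
  /-- the weights -/
  w : Fin n × Fin n → ℝ
  pos : ∀ e ∈ edges, 0 < w e

/-- The flow `f` ships one unit from `s` to `t`; the edge `(u, v)` is oriented from `u` to `v`. -/
def Ships {n : ℕ} (G : WGraph n) (s t : Fin n) (f : Fin n × Fin n → ℝ) : Prop :=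
  ∀ x : Fin n, ∑ e ∈ G.edges, f e * ((if e.1 = x then 1 else 0) - (if e.2 = x then 1 else 0))
    = (if s = x then 1 else 0) - (if t = x then 1 else 0)

/-- The flow metric `d_p`, the infimum of the costs `(∑ |f(e)/w(e)|^p)^(1/p)` over all flows
shipping one unit from `s` to `t` (it is `∞` if there is none). -/
noncomputable def flowMetric {n : ℕ} (p : ℝ) (G : WGraph n) (s t : Fin n) : ENNReal :=
  ⨅ (f : Fin n × Fin n → ℝ) (_ : Ships G s t f),
    ENNReal.ofReal ((∑ e ∈ G.edges, |f e / G.w e| ^ p) ^ (1 / p))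

/-- `G'` is a `d_p`-sparsifier of `G` with `(1+ε)`-approximation. -/
def IsSparsifier {n : ℕ} (p ε : ℝ) (G G' : WGraph n) : Prop :=
  ∀ s t : Fin n, ENNReal.ofReal (1 - ε) * flowMetric p G s t ≤ flowMetric p G' s t ∧
    flowMetric p G' s t ≤ ENNReal.ofReal (1 + ε) * flowMetric p G s t

theorem uflow_ships {n : ℕ} {G : WGraph n} {s t : Fin n} {f : Fin n × Fin n → ℝ}
    (h : UFlow Prod.fst Prod.snd G.edges s t f) : Ships G s t f := by
  intro x
  have h1 := h.1 x
  unfold net dem at h1
  rw [← h1]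
  apply Finset.sum_subset (Finset.subset_univ _)
  intro e _ he
  rw [h.2 e he, zero_mul]

theorem ships_uflow {n : ℕ} {G : WGraph n} {s t : Fin n} {f : Fin n × Fin n → ℝ}
    (h : Ships G s t f) :
    UFlow Prod.fst Prod.snd G.edges s t (fun e => if e ∈ G.edges then f e else 0) := by
  refine ⟨fun x => ?_, fun e he => if_neg he⟩
  have h1 := h x
  unfold net dem
  rw [← h1]
  symm
  calc ∑ e ∈ G.edges, f e * ((if e.1 = x then 1 else 0) - (if e.2 = x then 1 else 0))
      = ∑ e ∈ G.edges, (if e ∈ G.edges then f e else 0)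
          * ((if e.1 = x then 1 else 0) - (if e.2 = x then 1 else 0)) :=
        Finset.sum_congr rfl fun e he => by rw [if_pos he]
    _ = _ := by
        apply Finset.sum_subset (Finset.subset_univ _)
        intro e _ he
        rw [if_neg he, zero_mul]

theorem cost_eq {n : ℕ} {p : ℝ} (hp : 0 < p) {G : WGraph n} {f : Fin n × Fin n → ℝ}
    (h : ∀ e, e ∉ G.edges → f e = 0) :
    cost p G.w f = (∑ e ∈ G.edges, |f e / G.w e| ^ p) ^ (1 / p) := by
  unfold cost pc
  congr 1
  symm
  apply Finset.sum_subset (Finset.subset_univ _)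
  intro e _ he
  rw [h e he, zero_div, abs_zero, Real.zero_rpow hp.ne']

theorem cost_restrict {n : ℕ} {p : ℝ} (hp : 0 < p) {G : WGraph n} (f : Fin n × Fin n → ℝ) :
    cost p G.w (fun e => if e ∈ G.edges then f e else 0)
      = (∑ e ∈ G.edges, |f e / G.w e| ^ p) ^ (1 / p) := by
  rw [cost_eq hp (fun e he => if_neg he)]
  congr 1
  exact Finset.sum_congr rfl fun e he => by rw [if_pos he]

theorem flowMetric_le {n : ℕ} {p : ℝ} (hp : 0 < p) {G : WGraph n} {s t : Fin n}
    {f : Fin n × Fin n → ℝ} (h : UFlow Prod.fst Prod.snd G.edges s t f) :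
    flowMetric p G s t ≤ ENNReal.ofReal (cost p G.w f) := by
  rw [cost_eq hp h.2]
  exact iInf₂_le f (uflow_ships h)

theorem sparsifier_of_approx {n : ℕ} {p ε : ℝ} (hp : 0 < p) (hε : 0 < ε) {G G' : WGraph n}
    (h : Approx Prod.fst Prod.snd p G.edges G.w G'.edges G'.w (1 + ε) (1 - ε)) :
    IsSparsifier p ε G G' := by
  intro s t
  refine ⟨?_, ?_⟩
  · refine le_iInf₂ fun f' hf' => ?_
    rw [← cost_restrict hp f']
    obtain ⟨f, hf, h1⟩ := h.2 s t _ (ships_uflow hf')
    calc ENNReal.ofReal (1 - ε) * flowMetric p G s t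
        ≤ ENNReal.ofReal (1 - ε) * ENNReal.ofReal (cost p G.w f) :=
          mul_le_mul_right (flowMetric_le hp hf) _
      _ = ENNReal.ofReal ((1 - ε) * cost p G.w f) :=
          (ENNReal.ofReal_mul' (cost_nonneg _ _ _)).symm
      _ ≤ _ := ENNReal.ofReal_le_ofReal h1
  · have h2 : ENNReal.ofReal (1 + ε) * flowMetric p G s t
        = ⨅ (f : Fin n × Fin n → ℝ) (_ : Ships G s t f), ENNReal.ofReal (1 + ε) *
          ENNReal.ofReal ((∑ e ∈ G.edges, |f e / G.w e| ^ p) ^ (1 / p)) := by
      have hne0 : ENNReal.ofReal (1 + ε) ≠ 0 := by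
        rw [Ne, ENNReal.ofReal_eq_zero]; linarith
      unfold flowMetric
      rw [ENNReal.mul_iInf_of_ne hne0 ENNReal.ofReal_ne_top]
      refine iInf_congr fun f => ?_
      rw [ENNReal.mul_iInf_of_ne hne0 ENNReal.ofReal_ne_top]
    rw [h2]
    refine le_iInf₂ fun f hf => ?_
    rw [← cost_restrict hp f]
    obtain ⟨f', hf', h1⟩ := h.1 s t _ (ships_uflow hf)
    calc flowMetric p G' s t ≤ ENNReal.ofReal (cost p G'.w f') := flowMetric_le hp hf'
      _ ≤ ENNReal.ofReal ((1 + ε) * cost p G.w (fun e => if e ∈ G.edges then f e else 0)) :=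
          ENNReal.ofReal_le_ofReal h1
      _ = _ := ENNReal.ofReal_mul' (cost_nonneg _ _ _)

/-- **Near-linear flow-metric sparsifiers.** For `1 < p ≤ 2` with Hölder conjugate `q`,
`0 < ε < 1` and `n ≥ 2`, every weighted graph on `n` vertices has a `d_p`-sparsifier with
`(1+ε)`-approximation which is a reweighted subgraph with at most
`4 (1200/ε)^q n (log n)^(5q/2)` edges; in particular, for `p = 1.1` and `ε = 0.01`, for every
`c > 0` and all large `n` every weighted graph on `n` vertices has such a sparsifier with fewer than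
`n^(1+c)` edges, so that the statement of Q1 is false. -/
theorem result :
    (∀ p q ε : ℝ, p.HolderConjugate q → p ≤ 2 → 0 < ε → ε < 1 → ∀ n : ℕ, 2 ≤ n →
      ∀ G : WGraph n, ∃ G' : WGraph n, IsSparsifier p ε G G' ∧ G'.edges ⊆ G.edges ∧
        (G'.edges.card : ℝ) ≤ 4 * (1200 / ε) ^ q * n * Real.log n ^ (5 * q / 2)) ∧
    (∀ c : ℝ, 0 < c → ∃ N : ℕ, ∀ n ≥ N, ∀ G : WGraph n, ∃ G' : WGraph n,
      IsSparsifier (11 / 10) (1 / 100) G G' ∧ (G'.edges.card : ℝ) < (n : ℝ) ^ (1 + c)) := by
  have main : ∀ p q ε : ℝ, p.HolderConjugate q → p ≤ 2 → 0 < ε → ε < 1 → ∀ n : ℕ, 2 ≤ n →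
      ∀ G : WGraph n, ∃ G' : WGraph n, IsSparsifier p ε G G' ∧ G'.edges ⊆ G.edges ∧
        (G'.edges.card : ℝ) ≤ 4 * (1200 / ε) ^ q * n * Real.log n ^ (5 * q / 2) := by
    intro p q ε hpq hp2 hε hε1 n hn G
    obtain ⟨S', hS', w', hw', hc, ha⟩ := near_linear hpq hp2 hε hε1.le hn G.edges G.w G.pos
    refine ⟨⟨S', fun e he => G.lt e (hS' he), w', hw'⟩, ?_, hS', hc⟩
    have hp0 : 0 < p := by linarith [hpq.lt]
    exact sparsifier_of_approx hp0 hε ha
  refine ⟨main, fun c hc => ?_⟩
  have hconj : (11 / 10 : ℝ).HolderConjugate 11 := by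
    rw [Real.holderConjugate_iff]
    norm_num
  -- a power of the logarithm is small
  have h1 : (fun x : ℝ => Real.log x ^ (5 * (11:ℝ) / 2)) =o[Filter.atTop] fun x : ℝ => x ^ c :=
    isLittleO_log_rpow_rpow_atTop _ hc
  set C : ℝ := 4 * (1200 / (1 / 100)) ^ (11:ℝ) with hC
  have hC0 : 0 < C := by positivity
  have h2 := h1.def (show (0:ℝ) < 1 / (2 * C) by positivity)
  have h3 : ∀ᶠ n : ℕ in Filter.atTop, ‖Real.log (n:ℝ) ^ (5 * (11:ℝ) / 2)‖
      ≤ 1 / (2 * C) * ‖(n:ℝ) ^ c‖ := tendsto_natCast_atTop_atTop.eventually h2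
  obtain ⟨N, hN⟩ := Filter.eventually_atTop.mp h3
  refine ⟨max N 2, fun n hn G => ?_⟩
  have hn2 : 2 ≤ n := le_trans (le_max_right _ _) hn
  have hnN : N ≤ n := le_trans (le_max_left _ _) hn
  have hn0 : (0:ℝ) < n := by exact_mod_cast (by omega : 0 < n)
  obtain ⟨G', hG', _, hcard⟩ := main (11 / 10) 11 (1 / 100) hconj (by norm_num) (by norm_num)
    (by norm_num) n hn2 G
  refine ⟨G', hG', lt_of_le_of_lt hcard ?_⟩
  have h4 := hN n hnN
  have hL0 : 0 < Real.log n := Real.log_pos (by exact_mod_cast (by omega : 1 < n))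
  rw [Real.norm_of_nonneg (by positivity), Real.norm_of_nonneg (by positivity)] at h4
  have h5 : 0 < (n:ℝ) ^ c := by positivity
  calc C * n * Real.log n ^ (5 * (11:ℝ) / 2)
      ≤ C * n * (1 / (2 * C) * (n:ℝ) ^ c) := mul_le_mul_of_nonneg_left h4 (by positivity)
    _ = 1 / 2 * (n * (n:ℝ) ^ c) := by field_simp
    _ < n * (n:ℝ) ^ c := by linarith [mul_pos hn0 h5]
    _ = (n:ℝ) ^ (1 + c) := by rw [Real.rpow_add hn0, Real.rpow_one]

end Pool.Agent.Results.MP_59a14c_lc.NearLinearFlowSparsifiers
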